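import Pool.Agent.H29.LG.Targets

/-!
# CLK: closeness at a place above `p` (board lgx_modules)
-/

set_option autoImplicit false

open NumberField Height Finset Polynomial Pool.Agent.H24.RD Pool.Agent.H23.RDD Pool.Agent.H29.RQ
  Pool.Agent.H29.SX Pool.Agent.H29.LG

namespace Pool.Agent.H12.LG

private theorem max_rpow {a k : ℝ} (ha : 0 ≤ a) (hk : 0 < k) : max (a ^ k) 1 = max a 1 ^ k := by
  rcases le_total a 1 with h | h
  · rw [max_eq_right h, Real.one_rpow, max_eq_right]
    exact Real.rpow_le_one ha h hk.le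
  · rw [max_eq_left h, max_eq_left]
    exact Real.one_le_rpow h hk.le

private theorem dch_rpow {M : Type} [Field M] (v w : AbsoluteValue M ℝ) (g : M →+* M) {k : ℝ}
    (hk : 0 < k) (h : ∀ x, w (g x) = v x ^ k) (a b : M) : dch w (g a) (g b) = dch v a b ^ k := by
  unfold dch
  rw [← map_sub, h, h, h, max_rpow (v.nonneg _) hk, max_rpow (v.nonneg _) hk,
    ← Real.mul_rpow (by positivity) (by positivity), Real.div_rpow (v.nonneg _) (by positivity)]

private theorem dch_nonneg {M : Type} [Field M] (v : AbsoluteValue M ℝ) (a b : M) :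
    0 ≤ dch v a b := by
  unfold dch
  have := v.nonneg (a - b)
  positivity

theorem pf_CLK (h1 : T_RS) (h2 : T_PRF) : T_CLK := by
  intro F Ω _ _ _ _ _ _ _ Kb E hEn p f δ hp hδ hδ1 Φ hΦ M _ hE hKb hM w hwp θ hθ
  classical
  -- the restrictions of automorphisms to `M`
  obtain ⟨R, hR⟩ : ∃ R : (Ω ≃ₐ[F] Ω) → (M →+* M), ∀ (τ : Ω ≃ₐ[F] Ω) (x : M),
      ((R τ x : M) : Ω) = τ (x : Ω) := by
    refine ⟨fun τ => ((τ : Ω →+* Ω).comp (algebraMap M Ω)).codRestrict M fun x => hM τ x x.2,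
      fun τ x => rfl⟩
  obtain ⟨v, k, hk, hv⟩ := @h1 M M inferInstance inferInstance inferInstance inferInstance
    (R θ).toAlgebra w
  have hv' : ∀ x : M, w.1 (R θ x) = v.1 x ^ k := hv
  have hRp : ∀ τ : Ω ≃ₐ[F] Ω, R τ (p : M) = (p : M) := fun τ => map_natCast (R τ) p
  have hvp : v.1 (p : M) ^ k = w.1 (p : M) := by rw [← hv', hRp]
  have hp0 : (p : M) ≠ 0 := by
    have := hp.ne_zero
    exact_mod_cast this
  have hvp0 : 0 < v.1 (p : M) := v.1.pos hp0
  have hvp1 : v.1 (p : M) < 1 := by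
    by_contra hc
    have h3 : 1 ≤ v.1 (p : M) ^ k := Real.one_le_rpow (not_lt.1 hc) hk.le
    rw [hvp] at h3
    linarith
  have hle1 : ∀ x : M, v.1 x ^ k ≤ 1 → v.1 x ≤ 1 := by
    intro x hx
    by_contra hc
    have h3 : 1 < v.1 x ^ k := Real.one_lt_rpow (not_le.1 hc) hk
    linarith
  have hpw : (v.1 (p : M) ^ δ) ^ k = w.1 (p : M) ^ δ := by
    rw [← hvp, ← Real.rpow_mul hvp0.le, ← Real.rpow_mul hvp0.le, mul_comm]
  obtain ⟨ψ, hψ1, hψ2⟩ := hΦ M hE hKb hM v hvp1
  refine ⟨ψ.trans θ, fun z hz => ?_, ?_, ?_⟩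
  · rw [AlgEquiv.trans_apply, hψ1 z hz]
    exact hθ z hz
  · intro h s hs hh U hU x hx
    obtain ⟨x₀, hx₀, hxx⟩ := hx
    -- the roots in `M`
    set sM : Finset M := s.subtype (fun x => x ∈ M) with hsM
    have hmem : ∀ x : M, x ∈ sM ↔ (x : Ω) ∈ s := fun x => by
      rw [hsM, Finset.mem_subtype]
    let aEM : Algebra E M := (IntermediateField.inclusion hE).toRingHom.toAlgebra
    have haEM : ∀ e : E, ((algebraMap E M e : M) : Ω) = (e : Ω) := fun e => rfl
    have hinj : Function.Injective (algebraMap M Ω) := (algebraMap M Ω).injective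
    have hroots : h.map (algebraMap E M) = ∏ x ∈ sM, (X - C x) := by
      apply Polynomial.map_injective (algebraMap M Ω) hinj
      rw [Polynomial.map_map]
      have hc : (algebraMap M Ω).comp (algebraMap E M) = algebraMap E Ω := by
        ext e; rfl
      rw [hc, hh, Polynomial.map_prod]
      simp only [Polynomial.map_sub, Polynomial.map_X, Polynomial.map_C]
      have hps := Finset.prod_subtype_of_mem (s := s) (p := fun x => x ∈ M)
        (fun x : Ω => (X - C x : Polynomial Ω)) hs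
      rw [← hps]
      rfl
    have hRi : Function.Injective (R ψ) := (R ψ).injective
    -- the automorphism of `E`
    obtain ⟨φ, hφ⟩ : ∃ φ : E ≃+* E, ∀ e : E, ((φ e : E) : Ω) = ψ (e : Ω) := by
      refine ⟨{ toFun := fun e => ⟨ψ e, hEn ψ e e.2⟩
                invFun := fun e => ⟨ψ.symm e, hEn ψ.symm e e.2⟩
                left_inv := fun e => Subtype.ext (by simp)
                right_inv := fun e => Subtype.ext (by simp)
                map_mul' := fun a b => Subtype.ext (by simp)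
                map_add' := fun a b => Subtype.ext (by simp) }, fun e => rfl⟩
    have hcomp : (algebraMap E M).comp (φ : E →+* E) = (R ψ).comp (algebraMap E M) := by
      ext e
      change ((algebraMap E M (φ e) : M) : Ω) = ((R ψ (algebraMap E M e) : M) : Ω)
      rw [haEM, hφ, hR, haEM]
    have hroots' : (h.map (φ : E →+* E)).map (algebraMap E M) =
        ∏ y ∈ sM.image (R ψ), (X - C y) := by
      rw [Polynomial.map_map, hcomp, ← Polynomial.map_map, hroots, Polynomial.map_prod,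
        Finset.prod_image fun a _ b _ hab => hRi hab]
      simp only [Polynomial.map_sub, Polynomial.map_X, Polynomial.map_C]
    have hε1 : v.1 (p : M) ^ δ < 1 := Real.rpow_lt_one hvp0.le hvp1 hδ
    have hε2 : v.1 (p : M) ≤ v.1 (p : M) ^ δ := by
      conv_lhs => rw [← Real.rpow_one (v.1 (p : M))]
      exact Real.rpow_le_rpow_of_exponent_ge hvp0 hvp1.le hδ1
    have hkey : ∀ e : E, v.1 (algebraMap E M (φ e)) = v.1 (algebraMap E M e) ∧
        (v.1 (algebraMap E M e) ≤ 1 →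
          v.1 (algebraMap E M (φ e) - algebraMap E M e ^ (p ^ f)) ≤ v.1 (p : M) ^ δ) := by
      intro e
      refine hψ2 (algebraMap E M e) (algebraMap E M (φ e)) ?_ ?_
      · rw [haEM]; exact e.2
      · rw [haEM, haEM, hφ]
    have hfin := h2 E M v.1 (fun x y => v.add_le x y) p f hp (v.1 (p : M) ^ δ)
      (Real.rpow_pos_of_pos hvp0 _) hε1 hε2 φ (fun e => (hkey e).1)
      (fun e he => by
        have := (hkey e).2 he
        rwa [map_sub, map_pow]) h sM (sM.image (R ψ)) hroots hroots'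
    have hx0M : x₀ ∈ M := hs x₀ hx₀
    have hfin' := hfin ⟨x₀, hx0M⟩ ((hmem _).2 hx₀)
    have hU' : U = (sM.image (R ψ)).image (R θ) := by
      ext u
      rw [hU]
      constructor
      · rintro ⟨y, hy, hyu⟩
        refine Finset.mem_image.2 ⟨R ψ ⟨y, hs y hy⟩, Finset.mem_image.2
          ⟨⟨y, hs y hy⟩, (hmem _).2 hy, rfl⟩, Subtype.ext ?_⟩
        rw [hR, hR, hyu]; rfl
      · intro hu
        obtain ⟨y', hy', rfl⟩ := Finset.mem_image.1 hu
        obtain ⟨y, hy, rfl⟩ := Finset.mem_image.1 hy'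
        refine ⟨y, (hmem y).1 hy, ?_⟩
        rw [hR, hR]; rfl
    have hxR : x = R θ ⟨x₀, hx0M⟩ := Subtype.ext (by rw [hR, hxx])
    rw [hU', Finset.prod_image fun a _ b _ hab => (R θ).injective hab, hxR, ← map_pow]
    have hpr : ∏ y ∈ sM.image (R ψ), dch w.1 (R θ ((⟨x₀, hx0M⟩ : M) ^ (p ^ f))) (R θ y) =
        (∏ y ∈ sM.image (R ψ), dch v.1 ((⟨x₀, hx0M⟩ : M) ^ (p ^ f)) y) ^ k := by
      rw [← Real.finsetProd_rpow _ _ (fun y _ => dch_nonneg _ _ _)]
      exact Finset.prod_congr rfl fun y _ => dch_rpow v.1 w.1 (R θ) hk hv' _ _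
    rw [hpr, ← hpw]
    exact Real.rpow_le_rpow (Finset.prod_nonneg fun y _ => dch_nonneg _ _ _) hfin' hk.le
  · intro a b c ha hb hc
    have haM : a ∈ M := hE ha
    have hψa : ψ a ∈ M := hM ψ a haM
    obtain ⟨e1, e2⟩ := hψ2 ⟨a, haM⟩ ⟨ψ a, hψa⟩ ha rfl
    have hbR : b = R θ ⟨a, haM⟩ := Subtype.ext (by rw [hR, hb])
    have hcR : c = R θ ⟨ψ a, hψa⟩ := Subtype.ext (by rw [hR, hc]; rfl)
    refine ⟨?_, fun hb1 => ?_⟩
    · rw [hbR, hcR, hv', hv', e1]
    · rw [hbR, hv'] at hb1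
      have e3 := e2 (hle1 _ hb1)
      have e4 : b ^ (p ^ f) - c = R θ ((⟨a, haM⟩ : M) ^ (p ^ f) - ⟨ψ a, hψa⟩) := by
        rw [map_sub, map_pow, hbR, hcR]
      rw [e4, hv', ← hpw]
      refine Real.rpow_le_rpow (v.1.nonneg _) ?_ hk.le
      rw [v.1.map_sub]
      exact e3

end Pool.Agent.H12.LG
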